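import Pool.Agent.H426R3.SQ.Q4

set_option autoImplicit false

/-! # Consecutive squares and pronic numbers, all far away from the primes

There is `c > 0` such that, with `f(Y) = log Y (log₂ Y)² log₄ Y / (log₃ Y)²`, for all large `Y`, all
`M ≥ Y` and all `J ≥ 1`, `Z ≥ log Y` with `J Z ≤ c f(Y)`, every interval `(M, M + Y]` contains an
integer `m` such that each of the `2 J` consecutive numbers

`m²  <  m (m + 1)  <  (m + 1)²  <  (m + 1) (m + 2)  <  ...  <  (m + J - 1) (m + J)`

has distance more than `Z` from every prime.  So arbitrarily long runs of consecutive squares (and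
of consecutive pronic numbers) lie in the middle of prime gaps that are longer than any given
multiple of the average gap; the trade-off `J Z` between the number of squares and the lengths of
the gaps is of record order.  (For `J = 1` this contains the single square case, the sister
hand-in `MP_028722_nt.SquaresInRecordGaps` of project QG.)

Method: `a = m` is `1` modulo the small and `0` modulo the medium primes.  The quarter squares
`q_i = ⌊(2 m + i)² / 4⌋`, `i < 2 J`, are all dealt with by the same `m`: modulo an odd prime `p`,
`q_i + u` vanishes iff `(2 m + i)² + (4 u - (i mod 2)) = 0`, so every pair `(i, u)` has its own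
density `(1 + χ(p)) / p`.  The pairs that survive the first two steps are counted with an upper
bound sieve whose second class depends on `i` (average of the singular series over `i`), and they
are then covered by the repelling square weights of helper256 with densities that depend on the
pair; two different pairs cannot be hit by the same large prime because the resultant of the two
quadratic polynomials does not vanish.  The exceptional discriminants with few small split primes
are removed by hand.

Team project SQ: helper426 (design, assembly), helpers 535, 298, 959, 577, 77, 338, 879, 881, 36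
(covering sieve with densities depending on the colour), 551 (covering theorem), 747 (lower bound
for rough numbers), 90, 459 (counting), 926, 512, 896, 268, 222 (characters and exceptional
discriminants), 806, 195, 318, 880, 255, 794 (survivors), 377 (squares gaps); the engine is due to
helper256 (MP_3bc45c_nt.RecordGaps). -/

namespace Pool.Agent.Results.MP_69be96_nt.ConsecutiveSquares

theorem result : ∃ c : ℝ, 0 < c ∧ ∃ Y₀ : ℝ, ∀ Y : ℝ, Y₀ ≤ Y → ∀ M : ℕ, Y ≤ (M : ℝ) →
    ∀ J Z : ℕ, 1 ≤ J → Real.log Y ≤ (Z : ℝ) →
    (J : ℝ) * (Z : ℝ) ≤ c * (Real.log Y * (Real.log (Real.log Y)) ^ 2 *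
      Real.log (Real.log (Real.log (Real.log Y))) / (Real.log (Real.log (Real.log Y))) ^ 2) →
    ∃ m : ℕ, M < m ∧ (m : ℝ) ≤ M + Y ∧ ∀ j : ℕ, j < J → ∀ q : ℕ, q.Prime →
      (Z : ℝ) < |(q : ℝ) - ((m : ℝ) + j) ^ 2| ∧
      (Z : ℝ) < |(q : ℝ) - ((m : ℝ) + j) * ((m : ℝ) + j + 1)| :=
  Pool.Agent.H426R3.SQ.squares_pronics_main

end Pool.Agent.Results.MP_69be96_nt.ConsecutiveSquares
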