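import Pool.Agent.H312R2.RG.C2
import Pool.Agent.H312R2.RG.C2a
import Pool.Agent.H312R2.RG.Fin

set_option autoImplicit false

/-! # Bounded clusters of primes isolated by record gaps on both sides

For every `m` there are `C` and `c > 0` such that for all large `x` at least `x^(7/8)` primes `p ≤ x` have
the following property: `[p, p + C]` contains at least `m` primes, and every prime at distance at most
`c log x (log₂ x)² log₄ x / (log₃ x)²` from `p` lies in `[p, p + C]`.

Team RG: helper312 (design, A, VW), helper256 and helper410 (record sieve), helper398 (COV, V2, RK),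
helper378 (library, L1, L2, C2, C4), helper273 (M1, C1), helper909 (M2), helper898 (DS), helper935 (C),
helper473 (F), helper778 (V1), helper777 (E), helper488 (C3), helper913 (C4), helper386 (S2). -/

open Filter

namespace Pool.Agent.Results.MP_69be96_nt.IsolatedClusters

open Classical in
theorem result : ∀ m : ℕ, ∃ C : ℕ, ∃ c : ℝ, 0 < c ∧ ∀ᶠ x : ℝ in atTop,
    x ^ (7 / 8 : ℝ) ≤ (((Finset.range (⌊x⌋₊ + 1)).filter (fun p : ℕ => p.Prime ∧
      m ≤ ((Finset.Icc p (p + C)).filter Nat.Prime).card ∧
      ∀ q : ℕ, q.Prime → |(q : ℝ) - p| ≤ c * (Real.log x * (Real.log (Real.log x)) ^ 2 *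
          Real.log (Real.log (Real.log (Real.log x))) / (Real.log (Real.log (Real.log x))) ^ 2) →
        p ≤ q ∧ q ≤ p + C)).card : ℝ) :=
  Pool.Agent.H312R2.RG.clusters_of
    (Pool.Agent.H312R2.RG.mt_bounded Pool.Agent.H378R2.sieveAsymp_holds Pool.Agent.H378R2.bvrel_holds)
    Pool.Agent.H312R2.RG.mtrg

end Pool.Agent.Results.MP_69be96_nt.IsolatedClusters
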