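import Pool.Agent.H912R3.LF.Main

set_option autoImplicit false

/-! # More than `c log X` prescribed linear forms without primes, in every interval

For every `A` there is `c > 0` such that for all large `X`, every finite set of linear forms `a n + b`
with coprime integer coefficients of size at most `exp ((log X) ^ A)`, `a ≥ 1`, and
`∑ a / φ(a) ≤ c log X log log X`, and every interval `(z, z + X]`, some integer `n` of the interval makes
every value `a n + b` divisible by a prime `p ≤ exp ((log X) ^ (1 / 20))`. -/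

namespace Pool.Agent.Results.MP_69be96_nt.ManyFormsComposite

theorem result : ∀ A : ℕ, ∃ c : ℝ, 0 < c ∧ ∃ X₀ : ℝ, ∀ X : ℝ, X₀ ≤ X →
    ∀ F : Finset (ℕ × ℤ),
    (∀ x ∈ F, 1 ≤ x.1 ∧ (x.1 : ℝ) ≤ Real.exp ((Real.log X) ^ A) ∧
      |(x.2 : ℝ)| ≤ Real.exp ((Real.log X) ^ A) ∧ Int.gcd x.1 x.2 = 1) →
    ∑ x ∈ F, (x.1 : ℝ) / Nat.totient x.1 ≤ c * (Real.log X * Real.log (Real.log X)) →
    ∀ z : ℤ, ∃ n : ℤ, z < n ∧ (n : ℝ) ≤ z + X ∧
      ∀ x ∈ F, ∃ p : ℕ, p.Prime ∧ (p : ℝ) ≤ Real.exp ((Real.log X) ^ (1 / 20 : ℝ)) ∧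
        (p : ℤ) ∣ (x.1 : ℤ) * n + x.2 :=
  fun A => Pool.Agent.H912R3.LF.linear_forms A

end Pool.Agent.Results.MP_69be96_nt.ManyFormsComposite
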