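import Pool.Agent.H361R2.PA.Sc2

set_option autoImplicit false
set_option maxHeartbeats 4000000

namespace Pool.Agent.Results.MP_69be96_nt.RecordGapPlusSet

open Finset

/-- a record gap around `n` while `n + b` is composite for all `b` in a prescribed set -/
theorem result : ∀ D : ℕ, ∃ c : ℝ, 0 < c ∧ ∃ X₀ : ℝ, ∀ X : ℝ, X₀ ≤ X → ∀ B : Finset ℤ,
    (B.card : ℝ) ≤ c * (Real.log X * (Real.log (Real.log X) *
      Real.log (Real.log (Real.log (Real.log X))) / Real.log (Real.log (Real.log X)))) →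
    (∀ b ∈ B, |(b : ℝ)| ≤ Real.exp ((Real.log X) ^ D)) →
    ∀ z : ℤ, ∃ n : ℤ, (z : ℝ) < n ∧ (n : ℝ) ≤ z + X ∧
      (∀ m : ℤ, |(m : ℝ) - n| ≤ c * (Real.log X * Real.log (Real.log X) ^ 2 *
        Real.log (Real.log (Real.log (Real.log X))) / Real.log (Real.log (Real.log X)) ^ 2) →
        ¬ Prime m) ∧
      ∀ b ∈ B, ¬ Prime (n + b) := by
  intro D
  obtain ⟨c, hc, X₀, h⟩ := Pool.Agent.H361R2.PA.record_plus D 1 one_pos
  refine ⟨c, hc, max X₀ (Real.exp 1), fun X hX B hB hBb z => ?_⟩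
  have hX0 : X₀ ≤ X := (le_max_left _ _).trans hX
  have hX1 : Real.exp 1 ≤ X := (le_max_right _ _).trans hX
  have hL : 1 ≤ Real.log X := by
    rw [← Real.log_exp 1]
    exact Real.log_le_log (Real.exp_pos _) hX1
  have hXpos : 0 < X := (Real.exp_pos _).trans_le hX1
  obtain ⟨n, hn1, hn2, -, hn3, hn4⟩ := h X hX0 B hB (fun b hb => (hBb b hb).trans (by
    apply Real.exp_le_exp.2
    exact pow_le_pow_right₀ hL (by omega))) 0 z
  refine ⟨n, by linarith, hn2, fun m hm => ?_, hn4⟩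
  have e := hn3 (m - n) (by
    have h1 : Pool.Agent.H361R2.PA.FF 1 X = Real.log X * Real.log (Real.log X) ^ 2 *
        Real.log (Real.log (Real.log (Real.log X))) / Real.log (Real.log (Real.log X)) ^ 2 := by
      unfold Pool.Agent.H361R2.PA.FF
      rw [pow_one]
    rw [h1]
    push_cast
    exact hm)
  rwa [show n + (m - n) = m by ring] at e

end Pool.Agent.Results.MP_69be96_nt.RecordGapPlusSet
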